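import Pool.Agent.DWX.Iff

/-!
# A rational curve contracts if and only if its noncommutative deformation algebra is
finite-dimensional

`k` is any field. There is no condition on the dimension or on the canonical bundle.

`Nbhd k` (file `Pool/Agent/DWC/Defs.lean`): a neighbourhood `X = U₀ ∪ U₁` of a curve `C ≅ ℙ¹`, given
by the `k`-algebra `B` of functions on `U₀ ∩ U₁`, the subalgebras `B₀`, `B₁` of the functions which
extend to `U₀` and `U₁`, the restriction `res : B → k[T;T⁻¹]` of functions to `C`, and units `x`, `w`
of `B` which extend to `U₀` and to `U₁` and restrict to `T` and `T⁻¹`.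

`X.IsFormal` (file `Pool/Agent/DWX/Statement.lean`): `X` is the formal neighbourhood of `C`. The
rings `B₀`, `B₁`, `B` are noetherian and complete for the topology defined by the ideal `I` of `C`,
and `B / I ^ N` is the localisation of `B₀ / I₀ ^ N` at `x` and of `B₁ / I₁ ^ N` at `w`.
The completion of a smooth variety along a curve `C ≅ ℙ¹` is of this form: its open formal
subschemes over `C ∖ {∞}` and `C ∖ {0}` are affine, and `B₀ → B` is injective because
`I₀ ^ N / I₀ ^ (N + 1)` is a locally free module over `k[T]` (similarly for `B₁`).

`X.FinDimDef` (file `Pool/Agent/DWX/Statement.lean`): the noncommutative deformation algebra `Λ_def`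
of `C` is finite-dimensional. Precisely, there are a finite-dimensional algebra `Λ = k ⊕ 𝔪` with `𝔪`
nilpotent and a deformation of the sheaf `𝒪_C` over it from which every deformation of `𝒪_C` over
every such algebra `Γ` is induced. Deformations over `Γ` are sheaves on `X` with an action of `Γ`,
flat over `Γ`, with special fibre `𝒪_C`, given by two charts (`NCDeformation X ε`). If `Λ_def` is
finite-dimensional then `Λ = Λ_def` with its universal deformation has this property. Conversely,
given such a `Λ`, for every `n` the universal deformation over `Λ_def / 𝔪 ^ n` is induced along an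
algebra map `Λ → Λ_def / 𝔪 ^ n`. This map is surjective, because it is surjective modulo `𝔪 ^ 2` (the
deformations over `k ⊕ V`, `V ^ 2 = 0`, are `Ext¹(𝒪_C, 𝒪_C) ⊗ V`). So `dim Λ_def ≤ dim Λ`.

`X.ContractsToPoint` (file `Pool/Agent/DWX/Statement.lean`): the ring `R = H⁰(X, 𝒪) = B₀ ∩ B₁` of
functions on `X` is a complete noetherian local ring with residue field `k`, and there is a
projective morphism of schemes `f : Y → Spec R` with `R f_* 𝒪_Y = 𝒪` whose closed fibre is `C` as a
set, which is an isomorphism outside the closed fibre, such that `X` is the formal completion of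
`Y` along the closed fibre; and `f` is birational, if `X` is integral and `C` is not all of `X`. The
scheme `Y` is given as `Spec A₀ ∪ Spec A₁` for subalgebras `A₀` of `B₀` and `A₁` of `B₁`, and it is
finite over `ℙ¹_R`.
-/

set_option autoImplicit false

universe u

namespace Pool.Agent.Results.MP_dd2d88_ag.Contractibility

open Pool.Agent.DWC

theorem result {k : Type u} [Field k] (X : Nbhd k) (hX : X.IsFormal) :
    X.ContractsToPoint ↔ X.FinDimDef :=
  Nbhd.contractsToPoint_iff_finDimDef hX

end Pool.Agent.Results.MP_dd2d88_ag.Contractibility
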